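import Pool.Agent.Results.MP_17cbde_lc.UnaryCoordinates

/-!
# Minimum-weight constrained outerplane Laman graphs: the task is NP-hard

Given a finite set `S` of points, an outerplane drawing `D` on `S` and a number `W`, it is NP-hard
to decide whether there is an outerplane Laman graph on `S` which contains all edges of `D` and has
weight at most `W`. This holds already if all numbers of the input are written in unary, the points
are pairwise different and the drawing `D` has no edges.

`Pt` (points with integer coordinates), `toR`, `OuterplaneLaman` (the edge sets of the triangulated
simple polygons with vertex set `S`) and `weight` (sum of the Euclidean lengths) are defined in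
`Pool.Agent.H883R2.OL.Problem`; `NPHardOn` in `Pool.Agent.Y578.OL.Unary`.
-/

set_option autoImplicit false

namespace Pool.Agent.Results.MP_1a3fd7_lc.ConstrainedNPHard

open Pool.Agent.NPC Pool.Agent.NPC.R671 Pool.Agent.H883R2.OL Pool.Agent.Y578.OL

/-- The closed straight segment spanned by a set of (two) points. -/
def seg (e : Finset Pt) : Set (ℝ × ℝ) := convexHull ℝ (toR '' (e : Set Pt))

/-- The union of the segments of a drawing. -/
def support (D : Finset (Finset Pt)) : Set (ℝ × ℝ) := ⋃ e ∈ D, seg e

/-- The unbounded face of a drawing: the points of the complement of the drawing whose connected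
component in the complement is unbounded. -/
def outerFace (D : Finset (Finset Pt)) : Set (ℝ × ℝ) :=
  {z | z ∈ (support D)ᶜ ∧ ¬ Bornology.IsBounded (connectedComponentIn (support D)ᶜ z)}

/-- `D` is an outerplane drawing on `S`: its edges are segments between two different points of `S`,
an edge contains no point of `S` except its end points, two different edges meet at most in a
common end point, and every point of `S` lies on the boundary of the unbounded face (it is a limit
of points of the unbounded face). -/
structure OuterplaneDrawing (S : Finset Pt) (D : Finset (Finset Pt)) : Prop where
  sub : ∀ e ∈ D, e ⊆ S ∧ e.card = 2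
  avoid : ∀ e ∈ D, ∀ p ∈ S, toR p ∈ seg e → p ∈ e
  plane : ∀ e ∈ D, ∀ e' ∈ D, e ≠ e' → seg e ∩ seg e' ⊆ toR '' ((e ∩ e' : Finset Pt) : Set Pt)
  outer : ∀ p ∈ S, toR p ∈ closure (outerFace D)

/-- An instance: the points of `S` with natural coordinates in unary, the bound `W` in unary, and
the list of the edges of the drawing `D`, each given by two positions in the list of points. -/
abbrev CInst := UInst × List (ℕ × ℕ)

/-- The set of points of an instance. -/
def points (x : CInst) : Finset Pt := (numbers x.1).1.toFinset

/-- The edges of the drawing of an instance (positions beyond the end of the list stand for the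
origin). -/
def drawing (x : CInst) : Finset (Finset Pt) :=
  (x.2.map (fun ij => ({(numbers x.1).1.getD ij.1 (0, 0), (numbers x.1).1.getD ij.2 (0, 0)} :
    Finset Pt))).toFinset

/-- The decision problem: is there an outerplane Laman graph on `S` which contains every edge of `D`
(a `D`-constrained outerplane Laman graph) and has weight at most `W`? -/
def MinConstrainedLaman (x : CInst) : Prop :=
  ∃ E, OuterplaneLaman (points x) E ∧ drawing x ⊆ E ∧ weight E ≤ ((numbers x.1).2 : ℝ)

/-- The restriction on the instances: the points are pairwise different, the drawing `D` has no
edges, and it is an outerplane drawing on the set of points. -/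
def EmptyDrawing (x : CInst) : Prop :=
  Distinct x.1 ∧ x.2 = [] ∧ OuterplaneDrawing (points x) (drawing x)

theorem outerFace_empty : outerFace ∅ = Set.univ := by
  ext z
  have h1 : (support ∅ : Set (ℝ × ℝ))ᶜ = Set.univ := by simp [support]
  unfold outerFace
  rw [h1]
  simp only [Set.mem_univ, true_and, Set.mem_setOf_eq, iff_true, connectedComponentIn_univ]
  rw [PreconnectedSpace.connectedComponent_eq_univ]
  exact NormedSpace.unbounded_univ ℝ (ℝ × ℝ)

theorem outerplane_empty (S : Finset Pt) : OuterplaneDrawing S ∅ where
  sub := by simp
  avoid := by simp
  plane := by simp
  outer := by
    intro p _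
    rw [outerFace_empty]
    simp

theorem drawing_nil (x : UInst) : drawing (x, []) = ∅ := by simp [drawing]

theorem hardPr : HardPr Distinct MinLamanUnary := by
  refine hardPr_BSat.trans (Pr' := Distinct) instU_poly (fun φ _ => instU_distinct φ) ?_
  rintro φ ⟨h1, h2⟩
  rw [bsat_iff, Pool.Agent.Results.MP_17cbde_lc.UnaryCoordinates.equiv (rK φ) (rm φ) (rinc φ)
    (by unfold rK; omega) (by unfold rK; omega) (List.length_pos_iff.2 h1) (rN φ) rfl]
  unfold MinLamanUnary MinLaman
  rw [toFinset_eq, rpts_toFinset, numbers_instU, ← rthr_eq, Int.cast_natCast]

/-- The decision version of the minimum-weight constrained outerplane Laman graph problem is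
strongly NP-hard, already for drawings without edges: given a finite set `S` of points, whose
coordinates are natural numbers written in unary, an outerplane drawing `D` on `S` and a number `W`
written in unary, it is NP-hard to decide whether there is an outerplane Laman graph on `S` which
contains all edges of `D` and has weight at most `W`, even if the points are required to be pairwise
different and `D` to have no edges. -/
theorem result : NPHardOn EmptyDrawing MinConstrainedLaman := by
  have hp : Poly (fun x : UInst => ((x, []) : CInst)) := by fun_prop
  refine toNPHardOn (hardPr.trans (Pr' := EmptyDrawing) hp (fun x hx => ⟨hx, rfl, ?_⟩) ?_)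
  · rw [drawing_nil]
    exact outerplane_empty _
  · intro x _
    unfold MinConstrainedLaman MinLamanUnary MinLaman
    rw [drawing_nil]
    simp only [Finset.empty_subset, true_and]
    rfl

end Pool.Agent.Results.MP_1a3fd7_lc.ConstrainedNPHard
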